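import Pool.Agent.HFC.Stmts

/-!
# Squad HFC, row CLH: the class of the final theorem (central factor)
-/

set_option autoImplicit false

open scoped BigOperators

noncomputable section

namespace Pool.Agent.HFC.H32

open Pool.Agent.Helper51_AWC Pool.Agent.Helper79_WRA Pool.Agent.PP Pool.Agent.PP.KF
open Pool.Agent.PP.K9 Pool.Agent.PP.K9.H97 Pool.Agent.PP.H75 Pool.Agent.PP.T3 Pool.Agent.PP.T2
open Pool.Agent.PP.TB (Zd Star iz cz)
open Pool.Agent.PFD (Ei)
open Pool.Agent.PSS Pool.Agent.PST Pool.Agent.PST.GU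

attribute [local instance] Ideal.Quotient.field

/-- the action of `E` on the stable subgroup `D ≤ V`, as automorphisms of `D` -/
def resG {G : Type} [Group G] {V D : Subgroup G} (hDV : D ≤ V) (E : Subgroup (MulAut V))
    (hst : ∀ a ∈ E, ∀ d : D, ((a ⟨d, hDV d.2⟩ : V) : G) ∈ D) : E →* MulAut D where
  toFun a :=
    { toFun := fun d => ⟨(((a : MulAut V) ⟨d, hDV d.2⟩ : V) : G), hst a a.2 d⟩
      invFun := fun d => ⟨(((a : MulAut V)⁻¹ ⟨d, hDV d.2⟩ : V) : G), hst _ (E.inv_mem a.2) d⟩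
      left_inv := by
        intro d
        apply Subtype.ext
        change (((a : MulAut V)⁻¹ ((a : MulAut V) ⟨d, hDV d.2⟩) : V) : G) = d
        rw [← MulAut.mul_apply, inv_mul_cancel, MulAut.one_apply]
      right_inv := by
        intro d
        apply Subtype.ext
        change (((a : MulAut V) ((a : MulAut V)⁻¹ ⟨d, hDV d.2⟩) : V) : G) = d
        rw [← MulAut.mul_apply, mul_inv_cancel, MulAut.one_apply]
      map_mul' := by
        intro u v
        apply Subtype.ext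
        change (((a : MulAut V) (⟨u, hDV u.2⟩ * ⟨v, hDV v.2⟩) : V) : G) = _
        rw [map_mul]
        rfl }
  map_one' := by
    ext d
    rfl
  map_mul' := by
    intro a b
    ext d
    rfl

theorem clh : ClhStmt := by
  intro cla clb msu edf sry lke inx hadm ℓ hℓ M _ hM G _ _ e V γ hL hV C D₀ hCD hCV hC hD hcl
  have hab : ∀ a b : V, a * b = b * a := fun a b => Subtype.ext (hL.ab a a.2 b b.2)
  have hCle : C ≤ V := hCV ▸ le_sup_left
  have hDle : D₀ ≤ V := hCV ▸ le_sup_right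
  -- the order of `Ei`
  have hcop : ¬ ℓ ∣ Nat.card (Ei V γ) := by
    have h1 := (lke ℓ (FF M) G e V γ hL).1
    rw [← h1]
    have h2 := inx ℓ M hM G e hL.blk V hL.tp hL.ab γ hL.gam.supp hL.gam.blk hL.und
    have h3 : iz V V γ = (Subgroup.centralizer (V : Set G)).relIndex
        (Subgroup.normalizer (V : Set G) ⊓ stabF γ) := by
      unfold iz
      rw [Subgroup.inf_relIndex_right]
      rfl
    rw [h3]
    exact h2
  -- elements of `Ei` are induced by elements of `Tg`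
  have hEi : ∀ a ∈ Ei V γ, ∃ t ∈ Tg V γ, ∀ v : V, ((a v : V) : G) = t * v * t⁻¹ := by
    rintro _ ⟨⟨t, htn⟩, ht, rfl⟩
    exact ⟨t, Subgroup.mem_subgroupOf.1 ht, fun v => rfl⟩
  have hst : ∀ a ∈ Ei V γ, ∀ d : D₀, ((a ⟨d, hDle d.2⟩ : V) : G) ∈ D₀ := by
    intro a ha d
    obtain ⟨t, ht, h⟩ := hEi a ha
    rw [h]
    exact hD t ht d d.2
  have hne : (⊤ : Subgroup V) ≠ ⊥ := by
    intro h
    apply hV
    rw [eq_bot_iff]
    intro x hx
    have h1 : (⟨x, hx⟩ : V) ∈ (⊤ : Subgroup V) := Subgroup.mem_top _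
    rw [h, Subgroup.mem_bot] at h1
    rw [Subgroup.mem_bot]
    exact congrArg Subtype.val h1
  refine ⟨⊤, rfl, hne, hab, C.subgroupOf V, D₀.subgroupOf V, ?_, ?_, ?_, ?_, ?_⟩
  · rw [Subgroup.eq_bot_iff_forall]
    rintro x ⟨h1, h2⟩
    have h3 : (x : G) ∈ C ⊓ D₀ := ⟨Subgroup.mem_subgroupOf.1 h1, Subgroup.mem_subgroupOf.1 h2⟩
    rw [hCD, Subgroup.mem_bot] at h3
    exact Subtype.ext h3
  · rw [← Subgroup.subgroupOf_sup hCle hDle, hCV, Subgroup.subgroupOf_self]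
  · intro a ha c hc
    obtain ⟨t, ht, h⟩ := hEi a ha
    apply Subtype.ext
    rw [h, hC t ht c (Subgroup.mem_subgroupOf.1 hc), mul_inv_cancel_right]
  · intro a ha v hv
    rw [Subgroup.mem_subgroupOf]
    exact hst a ha ⟨v, Subgroup.mem_subgroupOf.1 hv⟩
  · by_cases hD0 : D₀ = ⊥
    · left
      rw [hD0, Subgroup.bot_subgroupOf]
    · right
      set E₀ : Subgroup (MulAut D₀) := (resG hDle (Ei V γ) hst).range with hE₀
      have hcop0 : ¬ ℓ ∣ Nat.card E₀ := by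
        intro h
        apply hcop
        exact h.trans (Subgroup.card_dvd_of_surjective _ (resG hDle (Ei V γ) hst).rangeRestrict_surjective)
      have hpD : IsPGroup ℓ D₀ := hL.tp.1.to_le hDle
      have habD : ∀ a b : D₀, a * b = b * a := fun a b =>
        Subtype.ext (hL.ab a (hDle a.2) b (hDle b.2))
      have hind : ∀ a ∈ E₀, ∃ t ∈ (Tg V γ : Set G), ∀ v : D₀, ((a v : D₀) : G) = t * v * t⁻¹ := by
        rintro _ ⟨⟨a, ha⟩, rfl⟩
        obtain ⟨t, ht, h⟩ := hEi a ha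
        exact ⟨t, ht, fun v => h ⟨v, hDle v.2⟩⟩
      have hmain : ∃ W₁ : Subgroup D₀, KV KP LP ℓ D₀ E₀ W₁ := by
        rcases hcl with ⟨W, U, h⟩ | ⟨s, Y, U, h⟩
        · obtain ⟨W₁, h1⟩ := cla msu edf ℓ G (Tg V γ : Set G) D₀ hD0 hpD habD E₀ hcop0 hind W U h
          exact ⟨W₁, Or.inl h1⟩
        · exact clb sry msu ℓ G (Tg V γ : Set G) D₀ hD0 hpD habD E₀ hcop0 hind s Y U h
      obtain ⟨W₁, h1⟩ := hmain
      set π : D₀ ≃* D₀.subgroupOf V := (Subgroup.subgroupOfEquivOfLe hDle).symm with hπ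
      refine ⟨W₁.map π.toMonoidHom, ?_⟩
      refine (hadm ℓ hℓ.out).iso D₀ (D₀.subgroupOf V) E₀ (rse (Ei V γ) (D₀.subgroupOf V)) W₁ π ?_ h1
      refine ⟨π.surjective, ?_⟩
      rintro a' ⟨a, ha, hau⟩
      refine ⟨resG hDle (Ei V γ) hst ⟨a, ha⟩, ⟨⟨a, ha⟩, rfl⟩, fun v => ?_⟩
      apply Subtype.ext
      have h2 := hau (π v)
      change (((π (resG hDle (Ei V γ) hst ⟨a, ha⟩ v) : D₀.subgroupOf V) : V)) = ((a' (π v) : D₀.subgroupOf V) : V)
      rw [h2]
      rfl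

end Pool.Agent.HFC.H32
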